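import Mathlib

namespace Pool.Agent.Results.MP_1bbcfd_lc.Oracle

open Finset

section
variable {S : Type} [DecidableEq S]

/-- the independence axioms of a matroid on the finite ground set `S` -/
def IsMatroid (I : Finset S → Bool) : Prop :=
  I ∅ = true ∧ (∀ A B, A ⊆ B → I B = true → I A = true) ∧
    ∀ A B, I A = true → I B = true → A.card < B.card → ∃ e ∈ B, e ∉ A ∧ I (insert e A) = true

/-- a maximal independent set -/
def IsBase (I : Finset S → Bool) (B : Finset S) : Prop :=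
  I B = true ∧ ∀ A, B ⊆ A → I A = true → A = B

/-- a `k`-element subset of a common base -/
def Feas (I J : Finset S → Bool) (k : ℕ) (X : Finset S) : Prop :=
  X.card = k ∧ ∃ B, IsBase I B ∧ IsBase J B ∧ X ⊆ B

/-- two matroids with a common base, of common rank at least `k` -/
def Valid (I J : Finset S → Bool) (k : ℕ) : Prop :=
  IsMatroid I ∧ IsMatroid J ∧ ∃ B, IsBase I B ∧ IsBase J B ∧ k ≤ B.card

end

/-- deterministic oracle algorithms: output a set, or ask one of the two independence oracles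
and go on by the answer -/
inductive Alg (S : Type) : Type
  | out : Finset S → Alg S
  | ask1 : Finset S → (Bool → Alg S) → Alg S
  | ask2 : Finset S → (Bool → Alg S) → Alg S

/-- the output with oracles `I`, `J` -/
def Alg.res {S : Type} (I J : Finset S → Bool) : Alg S → Finset S
  | .out H => H
  | .ask1 A k => (k (I A)).res I J
  | .ask2 A k => (k (J A)).res I J

/-- the number of oracle calls with oracles `I`, `J` -/
def Alg.calls {S : Type} (I J : Finset S → Bool) : Alg S → ℕ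
  | .out _ => 0
  | .ask1 A k => (k (I A)).calls I J + 1
  | .ask2 A k => (k (J A)).calls I J + 1

lemma hide {S : Type} [DecidableEq S] (I J : Finset S → Bool) (T : Alg S) : ∃ Q : Finset (Finset S),
    Q.card ≤ T.calls I J ∧ ∀ I' : Finset S → Bool, (∀ A ∈ Q, I' A = I A) → T.res I' J = T.res I J := by
  induction T with
  | out H => exact ⟨∅, by simp, fun _ _ => rfl⟩
  | ask1 A k ih =>
    obtain ⟨Q, h1, h2⟩ := ih (I A)
    refine ⟨insert A Q, (card_insert_le _ _).trans (by simpa [Alg.calls] using h1), fun r' h => ?_⟩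
    simp only [Alg.res, h A (mem_insert_self _ _)]
    exact h2 r' fun B hB => h B (mem_insert_of_mem hB)
  | ask2 A k ih =>
    obtain ⟨Q, h1, h2⟩ := ih (J A)
    exact ⟨Q, h1.trans (by simp [Alg.calls]), fun r' h => h2 r' h⟩

variable {n : ℕ}

def PP (A : Finset (Fin n × Fin 4)) : Finset (Fin n × Fin 4) := A.filter fun x => x.2 = 1 ∨ x.2 = 2

def QQ (A : Finset (Fin n × Fin 4)) : Finset (Fin n × Fin 4) := A.filter fun x => ¬ (x.2 = 1 ∨ x.2 = 2)

def TT (R : Finset (Fin n)) : Finset (Fin n × Fin 4) :=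
  univ.filter fun x => if x.1 ∈ R then x.2 = 1 else x.2 = 2

def BB (R : Finset (Fin n)) : Finset (Fin n × Fin 4) :=
  univ.filter fun x => if x.1 ∈ R then x.2 = 0 ∨ x.2 = 1 else x.2 = 2 ∨ x.2 = 3

open Classical in
noncomputable def I1 (k : ℕ) (R0 : Finset (Fin n)) (A : Finset (Fin n × Fin 4)) : Bool :=
  decide ((∀ x ∈ QQ A, ∀ y ∈ QQ A, x.1 = y.1 → x = y) ∧ (PP A).card ≤ n ∧
    ∀ R : Finset (Fin n), R.card = k → R ≠ R0 → PP A ≠ TT R)

def I2 (A : Finset (Fin n × Fin 4)) : Bool :=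
  decide (∀ x ∈ A, ∀ y ∈ A, (x.1, x.2.1 % 2) = (y.1, y.2.1 % 2) → x = y)

def w (x : Fin n × Fin 4) : ℕ := if x.2 = 3 then 0 else if x.2 = 2 then 3 else 2

lemma aug {α β : Type} [DecidableEq α] [DecidableEq β] (g : α → β) {A B : Finset α}
    (hA : ∀ x ∈ A, ∀ y ∈ A, g x = g y → x = y) (hB : ∀ x ∈ B, ∀ y ∈ B, g x = g y → x = y)
    (h : A.card < B.card) :
    ∃ e ∈ B, e ∉ A ∧ ∀ x ∈ insert e A, ∀ y ∈ insert e A, g x = g y → x = y := by
  obtain ⟨z, h1, h2⟩ := exists_mem_notMem_of_card_lt_card (s := A.image g) (t := B.image g)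
    (by rwa [card_image_of_injOn hA, card_image_of_injOn hB])
  obtain ⟨e, he, rfl⟩ := mem_image.1 h1
  refine ⟨e, he, fun h => h2 (mem_image_of_mem _ h), fun x hx y hy e' => ?_⟩
  rcases mem_insert.1 hx with rfl | hx' <;> rcases mem_insert.1 hy with rfl | hy'
  · rfl
  · exact absurd (e' ▸ mem_image_of_mem _ hy') h2
  · exact absurd (e' ▸ mem_image_of_mem _ hx') h2
  · exact hA x hx' y hy' e'

def col (A : Finset (Fin n × Fin 4)) (j : Fin n) : Finset (Fin 4) := univ.filter fun i => (j, i) ∈ A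

lemma sum_col (A : Finset (Fin n × Fin 4)) (f : Fin n × Fin 4 → ℕ) :
    ∑ x ∈ A, f x = ∑ j, ∑ i ∈ col A j, f (j, i) := by
  simp only [col, sum_filter, ← Fintype.sum_prod_type']
  simp

lemma card_col (A : Finset (Fin n × Fin 4)) : A.card = ∑ j, (col A j).card := by
  simp only [card_eq_sum_ones, sum_col A]

lemma card_ind (R : Finset (Fin n)) : ∑ j, (if j ∈ R then 1 else 0) = R.card := by simp

lemma TT_card (R : Finset (Fin n)) : (TT R).card = n := by
  rw [card_col, sum_congr rfl (g := fun _ => 1) fun j _ => by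
    by_cases h : j ∈ R <;> simp only [col, TT, mem_filter, mem_univ, true_and, h] <;> rfl]
  simp

lemma mem_TT {R : Finset (Fin n)} {i : Fin n} : ((i, 1) ∈ TT R ↔ i ∈ R) ∧ ((i, 2) ∈ TT R ↔ i ∉ R) := by
  by_cases h : i ∈ R <;> simp [TT, h]

lemma TT_inj {R R' : Finset (Fin n)} (e : TT R = TT R') : R = R' := by
  ext i; rw [← mem_TT.1, e, mem_TT.1]

lemma I2_mat : IsMatroid (I2 (n := n)) := by
  simp only [IsMatroid, I2, decide_eq_true_eq]
  exact ⟨by simp, fun A B h hB x hx y hy => hB x (h hx) y (h hy), fun A B => aug _⟩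

lemma I1_mat (k : ℕ) (R0 : Finset (Fin n)) (hn : 0 < n) : IsMatroid (I1 k R0) := by
  simp only [IsMatroid, I1, decide_eq_true_eq]
  refine ⟨⟨by simp [QQ], by simp [PP], fun R _ _ e => ?_⟩, fun A B h ⟨h1, h2, h3⟩ => ?_,
    fun A B ⟨a1, a2, a3⟩ ⟨b1, b2, b3⟩ h => ?_⟩
  · have := TT_card R; rw [← e] at this; simp [PP] at this; omega
  · have s : PP A ⊆ PP B := filter_subset_filter _ h
    refine ⟨fun x hx y hy => h1 x (filter_subset_filter _ h hx) y (filter_subset_filter _ h hy),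
      (card_le_card s).trans h2, fun R r1 r2 e => h3 R r1 r2 ?_⟩
    rw [← e]; exact (eq_of_subset_of_card_le s (by rw [e, TT_card]; exact h2)).symm
  · have c : ∀ A : Finset (Fin n × Fin 4), (PP A).card + (QQ A).card = A.card := fun A =>
      card_filter_add_card_filter_not _
    have := c A
    have := c B
    by_cases hq : (QQ A).card < (QQ B).card
    · obtain ⟨e, e1, e2, e3⟩ := aug Prod.fst a1 b1 hq
      simp only [QQ, mem_filter] at e1 e2
      have p : PP (insert e A) = PP A := by rw [PP, filter_insert, if_neg e1.2, PP]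
      refine ⟨e, e1.1, by tauto, ?_, p ▸ a2, p ▸ a3⟩
      rwa [QQ, filter_insert, if_pos e1.2]
    have key : ∀ e ∈ PP B, e ∉ PP A → e ∈ B ∧ e ∉ A ∧ QQ (insert e A) = QQ A ∧
        PP (insert e A) = insert e (PP A) ∧ (insert e (PP A)).card = (PP A).card + 1 := by
      intro e e1 e2
      have e3 := card_insert_of_notMem e2
      simp only [PP, mem_filter] at e1 e2
      exact ⟨e1.1, by tauto, by rw [QQ, filter_insert, if_neg (by tauto), QQ],
        by rw [PP, filter_insert, if_pos e1.2, PP], e3⟩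
    obtain ⟨e, e1, e2⟩ := exists_mem_notMem_of_card_lt_card (s := PP A) (t := PP B) (by omega)
    obtain ⟨k1, k2, k3, k4, k5⟩ := key e e1 e2
    by_cases hc : ∀ R : Finset (Fin n), R.card = k → R ≠ R0 → insert e (PP A) ≠ TT R
    · exact ⟨e, k1, k2, k3 ▸ a1, by rw [k4]; omega, k4 ▸ hc⟩
    push Not at hc
    obtain ⟨R, r1, r2, r3⟩ := hc
    obtain ⟨f, f1, f2⟩ : ∃ f ∈ PP B, f ∉ insert e (PP A) := not_subset.1 fun s => b3 R r1 r2 (by
      rw [← r3]; exact eq_of_subset_of_card_le s (by omega))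
    rw [mem_insert, not_or] at f2
    obtain ⟨l1, l2, l3, l4, l5⟩ := key f f1 f2.2
    refine ⟨f, l1, l2, l3 ▸ a1, by rw [l4]; omega, fun R' s1 _ s3 => ?_⟩
    rw [l4] at s3
    have m : ∀ x, x ≠ e → x ≠ f → (x ∈ TT R ↔ x ∈ TT R') := fun x x1 x2 => by
      rw [← r3, ← s3]; simp [x1, x2]
    have m1 : e ∈ TT R := r3 ▸ mem_insert_self _ _
    have m2 : e ∉ TT R' := by rw [← s3, mem_insert]; exact fun h => h.elim (fun h => f2.1 h.symm) e2
    have m3 : f ∉ TT R := by rw [← r3, mem_insert]; tauto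
    have m4 : f ∈ TT R' := s3 ▸ mem_insert_self _ _
    obtain ⟨i, a⟩ := e
    obtain ⟨j, b⟩ := f
    have m5 : ∀ t, t ≠ i → (t ∈ R ↔ t ∈ R') := fun t ht => by
      by_cases c : (t, (1 : Fin 4)) = (j, b)
      · have := m (t, 2) (by simp [ht]) (by rw [← c]; simp)
        rwa [mem_TT.2, mem_TT.2, not_iff_not] at this
      · have := m (t, 1) (by simp [ht]) c
        rwa [mem_TT.1, mem_TT.1] at this
    simp only [TT, mem_filter, mem_univ, true_and] at m1 m2
    by_cases h1 : i ∈ R <;> by_cases h2 : i ∈ R' <;> simp only [h1, h2, if_true, if_false] at m1 m2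
    · exact m2 m1
    · have := card_lt_card (s := R') (t := R) ⟨fun t ht => by
        by_cases c : t = i; exacts [c ▸ h1, (m5 t c).2 ht], fun s => h2 (s h1)⟩
      omega
    · have := card_lt_card (s := R) (t := R') ⟨fun t ht => by
        by_cases c : t = i; exacts [c ▸ h2, (m5 t c).1 ht], fun s => h1 (s h2)⟩
      omega
    · exact m2 m1

lemma I2_col {A : Finset (Fin n × Fin 4)} (h : I2 A = true) (j : Fin n) :
    ¬ (0 ∈ col A j ∧ 2 ∈ col A j) ∧ ¬ (1 ∈ col A j ∧ 3 ∈ col A j) := by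
  simp only [I2, decide_eq_true_eq] at h
  simp only [col, mem_filter, mem_univ, true_and]
  exact ⟨fun ⟨a, b⟩ => by simpa using h _ a _ b (by simp),
    fun ⟨a, b⟩ => by simpa using h _ a _ b (by simp)⟩

lemma I2_le {A : Finset (Fin n × Fin 4)} (h : I2 A = true) : A.card ≤ 2 * n := by
  have d : ∀ Y : Finset (Fin 4), ¬ (0 ∈ Y ∧ 2 ∈ Y) ∧ ¬ (1 ∈ Y ∧ 3 ∈ Y) → Y.card ≤ 2 := by decide
  rw [card_col]
  exact (sum_le_card_nsmul _ _ 2 fun j _ => d _ (I2_col h j)).trans (by simp [mul_comm])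

lemma BB_base (k : ℕ) (R0 R : Finset (Fin n)) (h : R.card = k → R = R0) :
    (BB R).card = 2 * n ∧ IsBase (I1 k R0) (BB R) ∧ IsBase I2 (BB R) := by
  have c : (BB R).card = 2 * n := by
    rw [card_col, sum_congr rfl (g := fun _ => 2) fun j _ => by
      by_cases h : j ∈ R <;> simp only [col, BB, mem_filter, mem_univ, true_and, h] <;> rfl]
    simp [mul_comm]
  have p : PP (BB R) = TT R := by
    ext ⟨i, a⟩; by_cases h : i ∈ R <;> simp only [PP, BB, TT, mem_filter, mem_univ, true_and, h] <;>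
      revert a <;> decide
  refine ⟨c, ⟨?_, fun A s hA => ?_⟩, ?_, fun A s hA =>
    (eq_of_subset_of_card_le s (c ▸ I2_le hA)).symm⟩
  · simp only [I1, decide_eq_true_eq, p, TT_card, le_refl, true_and]
    refine ⟨?_, fun R' r1 r2 e => r2 ?_⟩
    · rintro ⟨i, a⟩ hx ⟨j, b⟩ hy (rfl : i = j)
      by_cases h : i ∈ R <;> simp only [QQ, BB, mem_filter, mem_univ, true_and, h, if_true,
        if_false, Prod.mk.injEq] at hx hy ⊢ <;> omega
    · rw [← TT_inj e] at r1 ⊢; exact h r1
  · simp only [I1, decide_eq_true_eq] at hA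
    have a1 : (QQ A).card ≤ n := (card_le_card_of_injOn (t := univ) Prod.fst (by simp) hA.1).trans
      (by simp)
    have a2 : (PP A).card + (QQ A).card = A.card := card_filter_add_card_filter_not _
    exact (eq_of_subset_of_card_le s (by omega)).symm
  · simp only [I2, decide_eq_true_eq]
    rintro ⟨i, a⟩ hx ⟨j, b⟩ hy e
    obtain ⟨rfl, e⟩ := Prod.mk.inj e
    by_cases h : i ∈ R <;> simp only [BB, mem_filter, mem_univ, true_and, h, if_true,
      if_false, Prod.mk.injEq] at hx hy e ⊢ <;> omega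

lemma low {k : ℕ} (hk : k < n) {X : Finset (Fin n × Fin 4)} (h : Feas (I1 k univ) I2 (n + k) X) :
    ∑ x ∈ X, w x < 3 * n + k := by
  obtain ⟨h1, B, ⟨b1, -⟩, b2, s⟩ := h
  have c : 2 * n ≤ B.card := by
    by_contra! hc
    obtain ⟨c1, -, c2, -⟩ := BB_base k univ univ fun _ => rfl
    obtain ⟨e, -, e1, e2⟩ := I2_mat.2.2 _ _ b2.1 c2 (by omega)
    exact e1 (b2.2 _ (subset_insert _ _) e2 ▸ mem_insert_self _ _)
  simp only [I1, decide_eq_true_eq] at b1
  obtain ⟨q1, q2, q3⟩ := b1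
  have q0 : ∀ j, ¬ (0 ∈ col B j ∧ 3 ∈ col B j) := fun j ⟨a, b⟩ => by
    simpa using q1 (j, 0) (by simpa [QQ, col] using a) (j, 3) (by simpa [QQ, col] using b) rfl
  have d : ∀ Y : Finset (Fin 4), ¬ (0 ∈ Y ∧ 2 ∈ Y) ∧ ¬ (1 ∈ Y ∧ 3 ∈ Y) → Y.card ≤ 2 ∧
      (¬ (0 ∈ Y ∧ 3 ∈ Y) → Y.card = 2 → 1 ≤ (Y.filter fun i => i = 1 ∨ i = 2).card ∧
      (1 = (Y.filter fun i => i = 1 ∨ i = 2).card → Y = if 0 ∈ Y then {0, 1} else {2, 3})) := by
    decide
  have d' := fun j => d _ (I2_col b2.1 j)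
  have e1 := (sum_eq_sum_iff_of_le (s := univ) fun j _ => (d' j).1).1 (le_antisymm
    (sum_le_sum fun j _ => (d' j).1) (by rw [← card_col]; simpa [mul_comm] using c))
  have e2 : ∀ j, col (PP B) j = (col B j).filter fun i => i = 1 ∨ i = 2 := fun j => by
    ext; simp [col, PP]
  have d'' := fun j => (d' j).2 (q0 j) (e1 j (mem_univ _))
  have e3 := (sum_eq_sum_iff_of_le (s := univ) fun j _ => (d'' j).1).1 (le_antisymm
    (sum_le_sum fun j _ => (d'' j).1) (by simpa [card_col, e2] using q2))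
  obtain ⟨R, hR⟩ : ∃ R : Finset (Fin n), ∀ j, j ∈ R ↔ 0 ∈ col B j :=
    ⟨univ.filter fun j => 0 ∈ col B j, by simp⟩
  have e4 : ∀ j, col B j = if j ∈ R then {0, 1} else {2, 3} := fun j => by
    simp only [hR]; exact (d'' j).2 (e3 j (mem_univ _))
  have e5 : R.card ≠ k := fun r => q3 R r (by rintro rfl; simp at r; omega) (by
    ext ⟨j, a⟩
    have : (j, a) ∈ B ↔ a ∈ col B j := by simp [col]
    simp only [PP, TT, mem_filter, mem_univ, true_and, this, e4]
    clear this
    split_ifs <;> revert a <;> decide)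
  have e6 : ∀ j, ∑ i ∈ col X j, w (j, i) ≤ 3 + (if j ∈ R then 1 else 0) ∧
      ∑ i ∈ col X j, w (j, i) + (if j ∈ R then 1 else 0) ≤ 2 * (col X j).card + 1 := fun j => by
    have : col X j ⊆ col B j := fun i => by simpa [col] using fun h => s h
    rw [e4] at this
    have dd : ∀ Y : Finset (Fin 4), (Y ⊆ {0, 1} →
        (∑ x ∈ Y, if x = 3 then 0 else if x = 2 then 3 else 2) ≤ 3 + 1 ∧
        (∑ x ∈ Y, if x = 3 then 0 else if x = 2 then 3 else 2) + 1 ≤ 2 * Y.card + 1) ∧ (Y ⊆ {2, 3} →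
        (∑ x ∈ Y, if x = 3 then 0 else if x = 2 then 3 else 2) ≤ 3 + 0 ∧
        (∑ x ∈ Y, if x = 3 then 0 else if x = 2 then 3 else 2) + 0 ≤ 2 * Y.card + 1) := by decide
    simp only [w]
    split_ifs at this ⊢
    exacts [(dd _).1 this, (dd _).2 this]
  have a1 := sum_le_sum fun j (_ : j ∈ univ) => (e6 j).1
  have a2 := sum_le_sum fun j (_ : j ∈ univ) => (e6 j).2
  simp only [sum_add_distrib, card_ind, ← sum_col, ← mul_sum, ← card_col, h1, sum_const, card_univ,
    Fintype.card_fin, smul_eq_mul] at a1 a2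
  omega

theorem result (n k : ℕ) (hk : k < n) : ∃ (w : Fin n × Fin 4 → ℕ) (K : ℕ), (∀ x, w x ≤ 3) ∧
    ∀ T : Alg (Fin n × Fin 4), (∀ I J, Valid I J K → Feas I J K (T.res I J) ∧
        ∀ X, Feas I J K X → ∑ x ∈ X, w x ≤ ∑ x ∈ T.res I J, w x) →
      ∃ I J, Valid I J K ∧ n.choose k ≤ T.calls I J := by
  have v : ∀ R0 : Finset (Fin n), Valid (I1 k R0) I2 (n + k) := fun R0 => by
    obtain ⟨c1, c2, c3⟩ := BB_base k R0 univ (by simp; omega)
    exact ⟨I1_mat _ _ (by omega), I2_mat, _, c2, c3, by omega⟩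
  refine ⟨w, n + k, fun x => by unfold w; split_ifs <;> omega, fun T hT => ⟨_, _, v univ, ?_⟩⟩
  obtain ⟨Q, h1, h2⟩ := hide (I1 k univ) I2 T
  have : ∀ R ∈ powersetCard k (univ : Finset (Fin n)), TT R ∈ Q.image PP := by
    intro R hR
    rw [mem_powersetCard_univ] at hR
    by_contra hc
    have e := h2 (I1 k R) fun A hA => by
      simp only [I1, decide_eq_decide]
      refine and_congr_right fun _ => and_congr_right fun _ => forall_congr' fun R' =>
        ⟨fun h r1 _ e => h r1 (fun e' => hc (e' ▸ e ▸ mem_image_of_mem _ hA)) e,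
          fun h r1 _ => h r1 fun e => by rw [e] at r1; simp at r1; omega⟩
    have a1 := low hk (hT _ _ (v univ)).1
    obtain ⟨c1, c2, c3⟩ := BB_base k R R fun _ => rfl
    have cl : ∀ j, col ((BB R).filter fun x => x.2 ≠ 3) j = if j ∈ R then {0, 1} else {2} := fun j => by
      by_cases h : j ∈ R <;> simp only [col, BB, mem_filter, mem_univ, true_and, h] <;> rfl
    have a2 := (hT _ _ (v R)).2 ((BB R).filter fun x => x.2 ≠ 3) ⟨by
      rw [card_col, sum_congr rfl (g := fun j => 1 + if j ∈ R then 1 else 0) fun j _ => by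
        rw [cl]; split_ifs <;> rfl, sum_add_distrib, card_ind, hR]; simp, _, c2, c3, filter_subset _ _⟩
    rw [e, sum_col, sum_congr rfl (g := fun j => 3 + if j ∈ R then 1 else 0) fun j _ => by
      rw [cl]; split_ifs <;> simp [w], sum_add_distrib, card_ind, hR] at a2
    simp at a2; omega
  have := card_le_card_of_injOn _ this fun R _ R' _ e => TT_inj e
  have := card_image_le (s := Q) (f := PP)
  simp only [card_powersetCard, card_univ, Fintype.card_fin] at *
  omega

end Pool.Agent.Results.MP_1bbcfd_lc.Oracle
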